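import Pool.Agent.Helper58.ETL.Defs

/-! ETL-S3b: an identity for products of subspaces. -/

set_option autoImplicit false

namespace Pool.Agent.Helper58.ETL

namespace SThreeB

variable {k F : Type*} [Field k] [Field F] [Algebra k F]

lemma mul_le_mul_m {A B C D : Submodule k F} (h : A ≤ B) (h' : C ≤ D) : A * C ≤ B * D :=
  mul_le_mul' h h'

lemma sum_le_of {ι : Type*} (s : Finset ι) (f : ι → Submodule k F) (U : Submodule k F)
    (h : ∀ i ∈ s, f i ≤ U) : ∑ i ∈ s, f i ≤ U := by
  classical
  induction s using Finset.induction_on with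
  | empty => simp
  | insert i s hi ih =>
    rw [Finset.sum_insert hi]
    exact sup_le (h i (Finset.mem_insert_self _ _))
      (ih fun j hj => h j (Finset.mem_insert_of_mem hj))

lemma le_sum_of {ι : Type*} [DecidableEq ι] (s : Finset ι) (f : ι → Submodule k F) {i : ι}
    (h : i ∈ s) : f i ≤ ∑ i ∈ s, f i := by
  rw [← Finset.add_sum_erase s f h]
  exact le_sup_left

lemma prod_le_of {ι : Type*} (s : Finset ι) (f g : ι → Submodule k F)
    (h : ∀ i ∈ s, f i ≤ g i) : ∏ i ∈ s, f i ≤ ∏ i ∈ s, g i := by
  classical
  induction s using Finset.induction_on with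
  | empty => simp
  | insert i s hi ih =>
    rw [Finset.prod_insert hi, Finset.prod_insert hi]
    exact mul_le_mul_m (h i (Finset.mem_insert_self _ _))
      (ih fun j hj => h j (Finset.mem_insert_of_mem hj))

/-- `⟨1, x⟩ ≤ ⟨x - a⟩ + ⟨x - b⟩` for `a ≠ b`. -/
lemma span_pair_le (x : F) {a b : k} (hab : a ≠ b) :
    Submodule.span k {1, x} ≤ Submodule.span k {x - algebraMap k F a} +
      Submodule.span k {x - algebraMap k F b} := by
  rw [Submodule.span_le]
  have ha : x - algebraMap k F a ∈ Submodule.span k {x - algebraMap k F a} +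
      Submodule.span k {x - algebraMap k F b} :=
    Submodule.mem_sup_left (Submodule.mem_span_singleton_self _)
  have hb : x - algebraMap k F b ∈ Submodule.span k {x - algebraMap k F a} +
      Submodule.span k {x - algebraMap k F b} :=
    Submodule.mem_sup_right (Submodule.mem_span_singleton_self _)
  have h1 : (1 : F) ∈ Submodule.span k {x - algebraMap k F a} +
      Submodule.span k {x - algebraMap k F b} := by
    have := Submodule.smul_mem _ ((b - a)⁻¹) (Submodule.sub_mem _ ha hb)
    convert this using 1
    rw [Algebra.smul_def]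
    have h : algebraMap k F (b - a) ≠ 0 := by
      rw [Ne, FaithfulSMul.algebraMap_eq_zero_iff, sub_eq_zero]
      exact fun h => hab h.symm
    rw [map_inv₀]
    have e : x - algebraMap k F a - (x - algebraMap k F b) = algebraMap k F (b - a) := by
      rw [map_sub]; ring
    rw [e, inv_mul_cancel₀ h]
  intro y hy
  rcases hy with rfl | hy
  · exact h1
  · rw [Set.mem_singleton_iff] at hy
    subst hy
    have := Submodule.add_mem _ ha (Submodule.smul_mem _ a h1)
    rw [Algebra.smul_def, mul_one, sub_add_cancel] at this
    exact this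

end SThreeB

open SThreeB in
/-- ETL-S3b (a second identity). -/
theorem sum_prod_insert {k F : Type*} [Field k] [Field F] [Algebra k F]
    {ι : Type*} [DecidableEq ι] (s : Finset ι) (hs : s.Nonempty)
    (x : F) (a : ι → k) (ha : Set.InjOn a s) (Q Q' : ι → Submodule k F)
    (hQ : ∀ i ∈ s, Q i ≤ Q' i)
    (hQ' : ∀ i ∈ s, Submodule.span k {x - algebraMap k F (a i)} * Q' i ≤
      Q i * Submodule.span k {1, x}) (n : ℕ) (hn : s.card ≤ n + 1) :
    ∑ i ∈ s, Q' i * (∏ j ∈ s.erase i, Q j) * (Submodule.span k {1, x}) ^ n =
      (∏ j ∈ s, Q' j) * (Submodule.span k {1, x}) ^ n := by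
  apply le_antisymm
  · refine sum_le_of _ _ _ fun i hi => ?_
    refine mul_le_mul_m ?_ le_rfl
    rw [← Finset.mul_prod_erase s Q' hi]
    exact mul_le_mul_m le_rfl
      (prod_le_of _ _ _ fun j hj => hQ j (Finset.mem_of_mem_erase hj))
  · -- the nontrivial inequality, by induction on the cardinality
    obtain ⟨c, hc⟩ : ∃ c, s.card = c := ⟨_, rfl⟩
    induction c generalizing s with
    | zero => exact absurd hs (by simpa using hc)
    | succ c ih =>
      rcases Nat.eq_zero_or_pos c with rfl | hcpos
      · -- one element
        rw [zero_add, Finset.card_eq_one] at hc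
        obtain ⟨i, rfl⟩ := hc
        simp
      · have h1 : 1 < s.card := by omega
        obtain ⟨i, hi, j, hj, hij⟩ := Finset.one_lt_card.1 h1
        obtain ⟨m, rfl⟩ : ∃ m, n = m + 1 := ⟨n - 1, by omega⟩
        set X := Submodule.span k {(1 : F), x} with hX
        -- one element removed
        have key : ∀ t ∈ s, Submodule.span k {x - algebraMap k F (a t)} *
            ((∏ j ∈ s, Q' j) * X ^ m) ≤
            ∑ i ∈ s, Q' i * (∏ j ∈ s.erase i, Q j) * X ^ (m + 1) := by
          intro t ht
          have hne : (s.erase t).Nonempty := by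
            rw [← Finset.card_pos, Finset.card_erase_of_mem ht]; omega
          have hcard : (s.erase t).card = c := by
            rw [Finset.card_erase_of_mem ht]; omega
          have IH := ih (s.erase t) hne (ha.mono (by
            intro u hu; exact Finset.mem_of_mem_erase hu))
            (fun i hi => hQ i (Finset.mem_of_mem_erase hi))
            (fun i hi => hQ' i (Finset.mem_of_mem_erase hi)) (by omega) hcard
          calc Submodule.span k {x - algebraMap k F (a t)} * ((∏ j ∈ s, Q' j) * X ^ m)
              = (Submodule.span k {x - algebraMap k F (a t)} * Q' t) *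
                  ((∏ j ∈ s.erase t, Q' j) * X ^ m) := by
                rw [← Finset.mul_prod_erase s Q' ht]; ring
            _ ≤ (Q t * X) * ((∏ j ∈ s.erase t, Q' j) * X ^ m) :=
                mul_le_mul_m (hQ' t ht) le_rfl
            _ = Q t * ((∏ j ∈ s.erase t, Q' j) * X ^ (m + 1)) := by ring
            _ ≤ Q t * ∑ i ∈ s.erase t, Q' i * (∏ j ∈ (s.erase t).erase i, Q j) * X ^ (m + 1) :=
                mul_le_mul_m le_rfl IH
            _ = ∑ i ∈ s.erase t, Q t * (Q' i * (∏ j ∈ (s.erase t).erase i, Q j) *
                  X ^ (m + 1)) := by rw [Finset.mul_sum]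
            _ ≤ _ := by
                refine sum_le_of _ _ _ fun i hi => ?_
                have hi' := Finset.mem_of_mem_erase hi
                refine le_trans (le_of_eq ?_) (le_sum_of s _ hi')
                have : (s.erase i) = insert t ((s.erase t).erase i) := by
                  rw [Finset.erase_right_comm, Finset.insert_erase]
                  exact Finset.mem_erase.2 ⟨(Finset.ne_of_mem_erase hi).symm, ht⟩
                rw [this, Finset.prod_insert (by simp)]
                ring
        calc (∏ j ∈ s, Q' j) * X ^ (m + 1) = X * ((∏ j ∈ s, Q' j) * X ^ m) := by ring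
          _ ≤ (Submodule.span k {x - algebraMap k F (a i)} +
                Submodule.span k {x - algebraMap k F (a j)}) * ((∏ j ∈ s, Q' j) * X ^ m) :=
              mul_le_mul_m (span_pair_le x fun h => hij (ha hi hj h)) le_rfl
          _ = Submodule.span k {x - algebraMap k F (a i)} * ((∏ j ∈ s, Q' j) * X ^ m) +
                Submodule.span k {x - algebraMap k F (a j)} * ((∏ j ∈ s, Q' j) * X ^ m) := by
              rw [add_mul]
          _ ≤ _ := sup_le (key i hi) (key j hj)

end Pool.Agent.Helper58.ETL
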