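import Pool.Agent.Helper58.ETL.Defs

/-! ETL-S4: hyperplanes, multiplicative form. -/

set_option autoImplicit false

namespace Pool.Agent.Helper58.ETL

open Module

namespace SFour

variable {k F : Type*} [Field k] [Field F] [Algebra k F]

lemma mul_ne_bot {A B : Submodule k F} (hA : A ≠ ⊥) (hB : B ≠ ⊥) : A * B ≠ ⊥ := by
  obtain ⟨a, ha, ha0⟩ := Submodule.exists_mem_ne_zero_of_ne_bot hA
  obtain ⟨b, hb, hb0⟩ := Submodule.exists_mem_ne_zero_of_ne_bot hB
  intro h
  have := Submodule.mul_mem_mul ha hb
  rw [h, Submodule.mem_bot] at this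
  exact mul_ne_zero ha0 hb0 this

lemma prod_good {ι : Type*} (s : Finset ι) (f : ι → Submodule k F)
    (h : ∀ i ∈ s, f i ≠ ⊥ ∧ (f i).FG) : ∏ i ∈ s, f i ≠ ⊥ ∧ (∏ i ∈ s, f i).FG := by
  classical
  induction s using Finset.induction_on with
  | empty =>
    rw [Finset.prod_empty]
    refine ⟨?_, ?_⟩
    · rw [Submodule.one_eq_span]
      intro h
      rw [Submodule.span_singleton_eq_bot] at h
      exact one_ne_zero h
    · rw [Submodule.one_eq_span]
      exact Submodule.fg_span_singleton _
  | insert i s hi ih =>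
    rw [Finset.prod_insert hi]
    obtain ⟨h1, h2⟩ := h i (Finset.mem_insert_self _ _)
    obtain ⟨h3, h4⟩ := ih fun j hj => h j (Finset.mem_insert_of_mem hj)
    exact ⟨mul_ne_bot h1 h3, h2.mul h4⟩

lemma sup_eq_of {U H H' : Submodule k F} (hU : 2 ≤ finrank k U)
    (hH : H ≤ U ∧ finrank k H + 1 = finrank k U) (hH' : H' ≤ U ∧ finrank k H' + 1 = finrank k U)
    (hne : H ≠ H') : H + H' = U := by
  have : FiniteDimensional k U := Module.finite_of_finrank_pos (by omega)
  have hle : H + H' ≤ U := sup_le hH.1 hH'.1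
  have : FiniteDimensional k (H + H' : Submodule k F) := Submodule.finiteDimensional_of_le hle
  have : FiniteDimensional k H' := Submodule.finiteDimensional_of_le hH'.1
  have : FiniteDimensional k H := Submodule.finiteDimensional_of_le hH.1
  refine Submodule.eq_of_le_of_finrank_le hle ?_
  by_contra hlt
  push Not at hlt
  have h1 : H ≤ H + H' := le_sup_left
  have h2 : H' ≤ H + H' := le_sup_right
  have e1 : H = H + H' := by
    refine Submodule.eq_of_le_of_finrank_le h1 ?_
    have := hH.2
    omega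
  have e2 : H' = H + H' := by
    refine Submodule.eq_of_le_of_finrank_le h2 ?_
    have := hH'.2
    omega
  exact hne (e1.trans e2.symm)

end SFour

open SFour in
/-- ETL-S4 (hyperplanes, multiplicative form) with S2 (for this `g`) and S3 as hypotheses. -/
theorem hyp_mul_of {k F A : Type*} [Field k] [Field F] [Algebra k F] {N : ℕ} (hN : 0 < N)
    {g : Submodule k F → A}
    (spe : ∀ (s : Finset (Fin (N + 1))), s.Nonempty → ∀ (H : Fin (N + 1) → Submodule k F)
      (U : Submodule k F), (∀ i ∈ s, ∀ j ∈ s, i ≠ j → H i + H j = U) →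
      ∑ i ∈ s, ∏ j ∈ s.erase i, H j = U ^ (s.card - 1))
    (mv : ∀ C : Fin (N + 1) → Submodule k F, (∀ i, C i ≠ ⊥ ∧ (C i).FG) →
      ∃ j, g (∑ i ∈ Finset.univ.erase j, C i) = g (∑ i, C i))
    (U G : Submodule k F) (hU : 2 ≤ finrank k U) (hG : G ≠ ⊥)
    (hG' : G.FG) (n : ℕ) (H : Fin n → Submodule k F) (hn : n = N + 1)
    (hinj : Function.Injective H)
    (hH : ∀ i, H i ≤ U ∧ finrank k (H i) + 1 = finrank k U) :
    ∃ j, g (G * U ^ (N - 1) * H j) = g (G * U ^ N) := by
  subst hn
  have : FiniteDimensional k U := Module.finite_of_finrank_pos (by omega)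
  have hgood : ∀ i, H i ≠ ⊥ ∧ (H i).FG := by
    intro i
    have : FiniteDimensional k (H i) := Submodule.finiteDimensional_of_le (hH i).1
    refine ⟨?_, ?_⟩
    · intro h
      have := (hH i).2
      rw [h, finrank_bot] at this
      omega
    · rwa [← Module.Finite.iff_fg]
  have hpair : ∀ i j, i ≠ j → H i + H j = U := fun i j hij =>
    sup_eq_of hU (hH i) (hH j) fun h => hij (hinj h)
  obtain ⟨j, hj⟩ := mv (fun i => G * ∏ h ∈ Finset.univ.erase i, H h) (by
    intro i
    obtain ⟨h1, h2⟩ := prod_good (Finset.univ.erase i) H fun j _ => hgood j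
    exact ⟨mul_ne_bot hG h1, hG'.mul h2⟩)
  refine ⟨j, ?_⟩
  have e1 : ∑ i, G * ∏ h ∈ Finset.univ.erase i, H h = G * U ^ N := by
    rw [← Finset.mul_sum, spe Finset.univ ⟨j, Finset.mem_univ j⟩ H U
      (fun a _ b _ hab => hpair a b hab), Finset.card_univ, Fintype.card_fin, Nat.add_sub_cancel]
  have e2 : ∑ i ∈ Finset.univ.erase j, G * ∏ h ∈ Finset.univ.erase i, H h
      = G * U ^ (N - 1) * H j := by
    rw [← Finset.mul_sum]
    have hne : (Finset.univ.erase j).Nonempty := by
      rw [← Finset.card_pos, Finset.card_erase_of_mem (Finset.mem_univ j), Finset.card_univ,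
        Fintype.card_fin]
      omega
    have e3 : ∀ i ∈ Finset.univ.erase j, ∏ h ∈ Finset.univ.erase i, H h =
        H j * ∏ h ∈ (Finset.univ.erase j).erase i, H h := by
      intro i hi
      have : (Finset.univ.erase i) = insert j ((Finset.univ.erase j).erase i) := by
        rw [Finset.erase_right_comm, Finset.insert_erase]
        exact Finset.mem_erase.2 ⟨(Finset.ne_of_mem_erase hi).symm, Finset.mem_univ _⟩
      rw [this, Finset.prod_insert (by simp)]
    rw [Finset.sum_congr rfl e3, ← Finset.mul_sum, spe (Finset.univ.erase j) hne H U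
      (fun a _ b _ hab => hpair a b hab), Finset.card_erase_of_mem (Finset.mem_univ j),
      Finset.card_univ, Fintype.card_fin]
    have : N + 1 - 1 - 1 = N - 1 := by omega
    rw [this]
    ring
  rw [e1, e2] at hj
  exact hj

end Pool.Agent.Helper58.ETL
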